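import Pool.Agent.H4.Singer.TopDefs
import Pool.Agent.H85.VK.Defs

/-!
# Project OK: isomorphic graphs

The `ℓ²`-homology of the right-angled Coxeter group and the van Kampen obstruction of isomorphic graphs.
-/

set_option autoImplicit false
set_option linter.unusedSectionVars false

open Finset

namespace Pool.Agent.H85.OK

open Pool.Agent.H4.Singer Pool.Agent.H85.VK

section

variable {V W : Type} {G : SimpleGraph V} {H : SimpleGraph W}

/-- the right-angled Coxeter groups of isomorphic graphs -/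
theorem exists_group_iso (φ : G ≃g H) :
    ∃ E : RGrp G ≃* RGrp H, ∀ v, E (gen G v) = gen H (φ v) := by
  classical
  have hM : racg H = (racg G).reindex φ.toEquiv := by
    apply CoxeterMatrix.ext
    ext u v
    have ha : ∀ (A : Type) (L : SimpleGraph A) (a b : A), (racg L).M a b =
        if a = b then 1 else if L.Adj a b then 2 else 0 := fun A L a b => by
      unfold racg
      simp only [Matrix.of_apply]
    show (racg H).M u v = (racg G).M (φ.toEquiv.symm u) (φ.toEquiv.symm v)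
    rw [ha, ha]
    have h1 : G.Adj (φ.toEquiv.symm u) (φ.toEquiv.symm v) ↔ H.Adj u v := by
      have h2 := φ.map_adj_iff (v := φ.toEquiv.symm u) (w := φ.toEquiv.symm v)
      rw [← h2]
      have h3 : ∀ w, φ (φ.toEquiv.symm w) = w := fun w => φ.toEquiv.apply_symm_apply w
      rw [h3, h3]
    have h4 : φ.toEquiv.symm u = φ.toEquiv.symm v ↔ u = v := φ.toEquiv.symm.injective.eq_iff
    simp only [h1, h4]
  have key : ∀ M' : CoxeterMatrix W, M' = (racg G).reindex φ.toEquiv →
      ∃ E : (racg G).Group ≃* M'.Group, ∀ v, E ((racg G).simple v) = M'.simple (φ v) := by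
    rintro _ rfl
    exact ⟨((racg G).reindexGroupEquiv φ.toEquiv).symm, fun v =>
      (racg G).reindexGroupEquiv_symm_apply_simple φ.toEquiv v⟩
  exact key _ hM

theorem isClique_map (φ : G ≃g H) (σ : Finset V) :
    H.IsClique (σ.map φ.toEquiv.toEmbedding : Set W) ↔ G.IsClique (σ : Set V) := by
  constructor
  · intro h a ha b hb hab
    refine φ.map_adj_iff.1 (h ?_ ?_ fun h => hab (φ.injective h))
    · exact mem_coe.2 (mem_map_of_mem φ.toEquiv.toEmbedding (mem_coe.1 ha))
    · exact mem_coe.2 (mem_map_of_mem φ.toEquiv.toEmbedding (mem_coe.1 hb))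
  · intro h a ha b hb hab
    obtain ⟨a, ha', rfl⟩ := mem_map.1 (mem_coe.1 ha)
    obtain ⟨b, hb', rfl⟩ := mem_map.1 (mem_coe.1 hb)
    exact φ.map_adj_iff.2 (h (mem_coe.2 ha') (mem_coe.2 hb') fun h => hab (congrArg _ h))

variable [DecidableEq V] [Fintype V] [DecidableEq W] [Fintype W]

/-- chains are transported by an isomorphism -/
theorem chain_iso (φ : G ≃g H) (E : RGrp G ≃* RGrp H) (hE : ∀ v, E (gen G v) = gen H (φ v))
    {i : ℕ} {f : Finset W → RGrp H → ℂ} (hf : Pool.Agent.H4.Singer.IsL2Chain H i f) :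
    Pool.Agent.H4.Singer.IsL2Chain G i
      (fun σ w => f (σ.map φ.toEquiv.toEmbedding) (E w)) := by
  refine ⟨fun σ w hne => ?_, fun σ v hv w => ?_, fun σ => ?_⟩
  · obtain ⟨h1, h2⟩ := hf.supp _ _ hne
    rw [card_map] at h2
    exact ⟨(isClique_map φ σ).1 h1, h2⟩
  · show f _ (E (w * gen G v)) = - f _ (E w)
    rw [map_mul, hE]
    exact hf.anti _ _ (mem_map_of_mem φ.toEquiv.toEmbedding hv) _
  · exact (E.toEquiv.summable_iff (f := fun w => ‖f (σ.map φ.toEquiv.toEmbedding) w‖ ^ 2)).2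
      (hf.l2 _)

theorem dbd_iso (φ : G ≃g H) (E : RGrp G ≃* RGrp H) (ν : W → ℕ) (f : Finset W → RGrp H → ℂ)
    (σ : Finset V) (w : RGrp G) :
    dbd (G := G) (fun v => ν (φ v)) (fun σ w => f (σ.map φ.toEquiv.toEmbedding) (E w)) σ w =
      dbd (G := H) ν f (σ.map φ.toEquiv.toEmbedding) (E w) := by
  unfold dbd
  have h2 : (σ.map φ.toEquiv.toEmbedding)ᶜ = σᶜ.map φ.toEquiv.toEmbedding := by
    ext w
    rw [mem_compl, mem_map_equiv, mem_map_equiv, mem_compl]
  rw [h2, sum_map]
  refine sum_congr rfl fun v _ => ?_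
  rw [filter_map, card_map]
  have h3 : (insert v σ).map φ.toEquiv.toEmbedding =
      insert (φ.toEquiv.toEmbedding v) (σ.map φ.toEquiv.toEmbedding) := map_insert _ _ _
  rw [← h3]
  rfl

/-- **Isomorphic graphs.** -/
theorem l2_iso (φ : G ≃g H) {i : ℕ} (h : Pool.Agent.H4.Singer.L2HomologyZero H i) :
    Pool.Agent.H4.Singer.L2HomologyZero G i := by
  obtain ⟨E, hE⟩ := exists_group_iso φ
  have hE' : ∀ v, E.symm (gen H v) = gen G (φ.symm v) := by
    intro v
    rw [MulEquiv.symm_apply_eq, hE, RelIso.apply_symm_apply]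
  intro ν hν z hz hdz ε hε
  have h1 : ∀ (i : ℕ) (f : Finset V → RGrp G → ℂ) (σ : Finset V) (w : RGrp G),
      f ((σ.map φ.toEquiv.toEmbedding).map φ.symm.toEquiv.toEmbedding) (E.symm (E w)) = f σ w := by
    intro i f σ w
    rw [MulEquiv.symm_apply_apply, map_map]
    congr 1
    have : φ.toEquiv.toEmbedding.trans φ.symm.toEquiv.toEmbedding = Function.Embedding.refl V := by
      ext v
      exact φ.symm_apply_apply v
    rw [this, map_refl]
  obtain ⟨y, hy, hyε⟩ := h (fun w => ν (φ.symm w)) (fun a b hab => φ.symm.injective (hν hab))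
    (fun σ w => z (σ.map φ.symm.toEquiv.toEmbedding) (E.symm w))
    (chain_iso φ.symm E.symm hE' hz) (by
      funext σ w
      rw [dbd_iso φ.symm E.symm ν z σ w, hdz]
      rfl) ε hε
  refine ⟨fun σ w => y (σ.map φ.toEquiv.toEmbedding) (E w), chain_iso φ E hE hy, ?_⟩
  have h2 : ∀ (σ : Finset V) (w : RGrp G), z σ w - dbd ν (fun σ w => y
      (σ.map φ.toEquiv.toEmbedding) (E w)) σ w =
      (fun (σ : Finset W) (w : RGrp H) => z (σ.map φ.symm.toEquiv.toEmbedding) (E.symm w) -
        dbd (fun w => ν (φ.symm w)) y σ w) (σ.map φ.toEquiv.toEmbedding) (E w) := by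
    intro σ w
    have h3 := dbd_iso φ E (fun w => ν (φ.symm w)) y σ w
    have h4 : (fun v => ν (φ.symm (φ v))) = ν := by
      funext v
      rw [RelIso.symm_apply_apply]
    rw [h4] at h3
    show _ = z _ _ - dbd (fun w => ν (φ.symm w)) y (σ.map φ.toEquiv.toEmbedding) (E w)
    rw [h1 i z, h3]
  have h5 : ∀ σ : Finset V, ∑' w, ‖z σ w - dbd ν (fun σ w => y
      (σ.map φ.toEquiv.toEmbedding) (E w)) σ w‖ ^ 2 =
      ∑' w, ‖z ((σ.map φ.toEquiv.toEmbedding).map φ.symm.toEquiv.toEmbedding) (E.symm w) -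
        dbd (fun w => ν (φ.symm w)) y (σ.map φ.toEquiv.toEmbedding) w‖ ^ 2 := by
    intro σ
    rw [← E.toEquiv.tsum_eq]
    refine tsum_congr fun w => ?_
    rw [h2]
    rfl
  rw [sum_congr rfl fun σ _ => h5 σ]
  have h6 := Equiv.sum_comp φ.toEquiv.finsetCongr fun σ : Finset W =>
    ∑' w, ‖z (σ.map φ.symm.toEquiv.toEmbedding) (E.symm w) -
      dbd (fun w => ν (φ.symm w)) y σ w‖ ^ 2
  exact lt_of_eq_of_lt h6 hyε

omit [Fintype V] [Fintype W] in
/-- **The van Kampen obstruction of isomorphic graphs.** -/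
theorem van_iso (φ : G ≃g H) {k : ℕ} (h : VanKampenZero H k) : VanKampenZero G k := by
  obtain ⟨ν, hν, g, hg⟩ := h
  refine ⟨fun v => ν (φ v), fun a b hab => φ.injective (hν hab), fun σ τ =>
    g (σ.map φ.toEquiv.toEmbedding) (τ.map φ.toEquiv.toEmbedding), fun σ τ h1 h2 h3 h4 h5 => ?_⟩
  have h6 := hg (σ.map φ.toEquiv.toEmbedding) (τ.map φ.toEquiv.toEmbedding)
    ((isClique_map φ σ).2 h1) (by rw [card_map, h2]) ((isClique_map φ τ).2 h3)
    (by rw [card_map, h4]) ((disjoint_map _).2 h5)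
  have h7 : Interlace ν (σ.map φ.toEquiv.toEmbedding) (τ.map φ.toEquiv.toEmbedding) ↔
      Interlace (fun v => ν (φ v)) σ τ := by
    unfold Interlace
    rw [← map_union]
    simp only [forall_mem_map, mem_map']
    rfl
  have h8 : ∀ (σ τ : Finset V), ∑ v ∈ τ.map φ.toEquiv.toEmbedding,
      g (σ.map φ.toEquiv.toEmbedding) ((τ.map φ.toEquiv.toEmbedding).erase v) =
      ∑ v ∈ τ, g (σ.map φ.toEquiv.toEmbedding) ((τ.erase v).map φ.toEquiv.toEmbedding) := by
    intro σ τ
    rw [sum_map]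
    refine sum_congr rfl fun v _ => ?_
    rw [map_erase]
  rw [h8, h8] at h6
  rw [← h6]
  by_cases hI : Interlace ν (σ.map φ.toEquiv.toEmbedding) (τ.map φ.toEquiv.toEmbedding)
  · rw [if_pos hI, if_pos (h7.1 hI)]
  · rw [if_neg hI, if_neg fun hc => hI (h7.2 hc)]

end

end Pool.Agent.H85.OK
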