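import Pool.Agent.H85.OK.Main
import Pool.Agent.H85.OK.Iso
import Pool.Agent.H65.RA.Main
import Pool.Agent.H75.Oct.Pair
import Pool.Agent.H19.LI.Final
import Pool.Agent.H77.SW.Final

/-!
# Project OK: the van Kampen obstruction of octahedralisations and CAT(0) cube complexes
-/

set_option autoImplicit false

open Finset

namespace Pool.Agent.H85.OK

open Pool.Agent.H19.Cub Pool.Agent.H19.LI Pool.Agent.H85.VK Pool.Agent.H65.RA

/-- If the van Kampen obstruction in degree `2 k` of the octahedralisation vanishes, then so does the homology of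
the flag complex modulo two in degree `k`. -/
theorem hz_of_vk {V : Type} [DecidableEq V] [Fintype V] {G : SimpleGraph V} {k : ℕ}
    (h : VanKampenZero (oct G) k) : HZ G (k + 1) :=
  Pool.Agent.H75.Oct.hz_of_pairing G (k + 1) fun x z hx hz hdz => van_pair h x z hx hz hdz

/-- The flag complex of `L` is isomorphic to the octahedralisation of a finite flag complex. -/
def IsOct {W : Type} (L : SimpleGraph W) : Prop :=
  ∃ (V : Type) (_ : Fintype V) (G : SimpleGraph V), Nonempty (L ≃g oct G)

/-- **Right-angled Coxeter groups with an octahedralisation as their nerve.** -/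
theorem l2_isOct {W : Type} [DecidableEq W] [Fintype W] {L : SimpleGraph W} {k : ℕ}
    (hL : IsOct L) (h : VanKampenZero L k) :
    Pool.Agent.H4.Singer.L2HomologyZero L (k + 1) := by
  classical
  obtain ⟨V, _, G, ⟨φ⟩⟩ := hL
  exact l2_iso φ (oct_l2 (hz_of_vk (van_iso φ.symm h)))

/-- **CAT(0) cube complexes.** -/
theorem cat0_vk {V X Γ : Type} [DecidableEq V] [Countable V] [Group Γ] [MulAction Γ V]
    [MulAction Γ X] {C : CubeComplex V X} (hC : IsCAT0 C) (hΓ : IsGeom Γ C) {k : ℕ}
    (hL : ∀ x, IsOct (lk C x) ∨ ∀ σ : Finset {v // v ∈ C.lab x},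
      (lk C x).IsClique (σ : Set {v // v ∈ C.lab x}) → σ.card ≤ k + 1)
    (h : ∀ x, VanKampenZero (lk C x) k) : L2Zero C (k + 1) := by
  refine local_global_cat0 hC hΓ (k + 1) fun x => ?_
  rcases hL x with hx | hx
  · exact l2_isOct hx (h x)
  · exact Pool.Agent.H77.SW.l2_all (lk C x) k hx (h x) (k + 1) (Nat.lt_succ_self k)

end Pool.Agent.H85.OK
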