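import Pool.Agent.H85.OK.Mod
import Pool.Agent.H19.VX.Main

/-!
# Project OK: the `ℓ²`-homology of the right-angled Coxeter group of an octahedralisation

If the reduced homology modulo two of the flag complex of `G` vanishes on the simplices with `j` vertices, then the
reduced `ℓ²`-homology of the right-angled Coxeter group of the octahedralisation vanishes in degree `j`.
-/

set_option autoImplicit false
set_option linter.unusedSectionVars false

open Finset Filter Topology

namespace Pool.Agent.H85.OK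

open Pool.Agent.H19.Cub Pool.Agent.H19.LG Pool.Agent.H4.Singer Pool.Agent.H85.Fold
  Pool.Agent.H85.Fold2 Pool.Agent.H65.RA Pool.Agent.H4.Atiyah Pool.Agent.H19.VX

section

variable {V : Type} [DecidableEq V] [Fintype V] {G : SimpleGraph V}

private theorem vn_oct [DecidableEq (RGrp (oct G))] {j : ℕ} (h : Pool.Agent.H65.RA.HZ G j)
    (ν : V × Bool → ℕ) (hν : Function.Injective ν) :
    vnDim (toC (HSA (oct G) (cY univ) triv ν j)) ≤ 0 := by
  classical
  have hνω : ∀ ω : V → Bool, Function.Injective fun v => ν (v, ω v) := fun ω u v huv =>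
    congrArg Prod.fst (hν huv)
  choose p₀ hp₀ using fun ω : V → Bool => fb_large G (fun v => ν (v, ω v)) (hνω ω) j
  obtain ⟨p, hp1, hp2⟩ := Nat.exists_infinite_primes ((∑ ω, p₀ ω) + 3)
  have : Fact p.Prime := ⟨hp2⟩
  have : Fact (Nat.Prime 2) := ⟨Nat.prime_two⟩
  have h3 : (2 : ZMod p) ≠ 0 := by
    intro h0
    have h1 : ((2 : ℕ) : ZMod p) = 0 := by exact_mod_cast h0
    rw [ZMod.natCast_eq_zero_iff] at h1
    have := Nat.le_of_dvd (by norm_num) h1
    omega
  have h4 := redM h3 (mo G (ZMod p)) (cY univ) triv (isSpec_triv (oct G) _) ν hν j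
  have h5 : ∀ ω : V → Bool, SZ (ZMod p) G (fun _ : Unit => univ)
      (fun _ => (-1 : Matrix Unit Unit (ZMod p))) triv (fun v => ν (v, ω v)) j ≤
      SB (ZMod p) G (fun _ : Unit => univ) (fun _ => (-1 : Matrix Unit Unit (ZMod p)))
        triv (fun v => ν (v, ω v)) j := by
    intro ω
    have hle : p₀ ω ≤ p := by
      have := single_le_sum (f := p₀) (fun _ _ => Nat.zero_le _) (mem_univ ω)
      omega
    have h6 := hp₀ ω p hle (ZMod 2)
    rw [fb_two G h] at h6
    have h7 : Module.finrank (ZMod p) (SZ (ZMod p) G (fun _ : Unit => univ)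
      (fun _ => (-1 : Matrix Unit Unit (ZMod p))) triv (fun v => ν (v, ω v)) j) ≤
      Module.finrank (ZMod p) (SB (ZMod p) G (fun _ : Unit => univ)
        (fun _ => (-1 : Matrix Unit Unit (ZMod p))) triv (fun v => ν (v, ω v)) j) := by
      unfold fb bS at h6
      omega
    have h8 : SB (ZMod p) G (fun _ : Unit => univ) (fun _ => (-1 : Matrix Unit Unit (ZMod p)))
        triv (fun v => ν (v, ω v)) j ≤ SZ (ZMod p) G (fun _ : Unit => univ)
      (fun _ => (-1 : Matrix Unit Unit (ZMod p))) triv (fun v => ν (v, ω v)) j :=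
      SB_le_SZ (ZMod p) G _ _ _ _ (hνω ω) j
    exact (Submodule.eq_of_le_of_finrank_le h8 h7).ge
  have h6 : bS (ZMod p) (oct G) (cY univ) (mo G (ZMod p)).R triv ν j = 0 := by
    unfold bS
    rw [Nat.sub_eq_zero_iff_le]
    exact Submodule.finrank_mono (cyc_le G (ZMod p) h3 ν j h5)
  rw [h6] at h4
  simpa using h4

/-- **The right-angled Coxeter group of an octahedralisation.** -/
theorem oct_l2 {j : ℕ} (h : Pool.Agent.H65.RA.HZ G j) :
    Pool.Agent.H4.Singer.L2HomologyZero (oct G) j := by
  classical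
  refine l2_of_hz fun ν hν f hf => ?_
  exact harm_infS (oct G) (cY univ) triv (isSpec_triv (oct G) _) ν j
    (l2ker_trivial_of_vnDim _ (vn_oct h ν hν)) f hf

end

end Pool.Agent.H85.OK
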