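import Pool.Agent.H85.OK.Rank
import Pool.Agent.H19.LG.MDefs

/-!
# Project OK: the module of the octahedralisation

`mo`: the functions on `V → Bool`, `R (v, a)` is the diagonal matrix with `-1` at the `ω` with `ω v = a` and `1` at the
others, `B (v, a)` flips `ω v`. The chains with values in this module are the direct sum over `ω` of the chains of the
copies `{(v, ω v)}` of the flag complex of `G`.
-/

set_option autoImplicit false
set_option linter.unusedSectionVars false

open Finset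

namespace Pool.Agent.H85.OK

open Pool.Agent.H19.Cub Pool.Agent.H19.LG Pool.Agent.H4.Singer Pool.Agent.H85.Fold
  Pool.Agent.H85.Fold2 Pool.Agent.H65.RA

section

variable {V : Type} [DecidableEq V] [Fintype V] (G : SimpleGraph V) (K : Type) [Field K]

/-- the flip of the coordinate `v` -/
def flp (v : V) (ω : V → Bool) : V → Bool := Function.update ω v (!ω v)

theorem flp_flp (v : V) (ω : V → Bool) : flp v (flp v ω) = ω := by
  unfold flp
  rw [Function.update_idem, Function.update_self, Bool.not_not, Function.update_eq_self]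

theorem flp_comm {u v : V} (h : u ≠ v) (ω : V → Bool) : flp u (flp v ω) = flp v (flp u ω) := by
  unfold flp
  rw [Function.update_of_ne h, Function.update_of_ne h.symm, Function.update_comm h]

/-- the sign of `(v, a)` at `ω` -/
def sn (x : V × Bool) (ω : V → Bool) : K := if ω x.1 = x.2 then -1 else 1

theorem sn_sq (x : V × Bool) (ω : V → Bool) : sn K x ω * sn K x ω = 1 := by
  unfold sn
  split_ifs <;> simp

theorem sn_flp (x : V × Bool) (ω : V → Bool) : sn K x (flp x.1 ω) = - sn K x ω := by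
  unfold sn flp
  rw [Function.update_self]
  rcases ω x.1 with _ | _ <;> rcases x.2 with _ | _ <;> simp

theorem sn_flp_ne {x y : V × Bool} (h : x.1 ≠ y.1) (ω : V → Bool) :
    sn K x (flp y.1 ω) = sn K x ω := by
  unfold sn flp
  rw [Function.update_of_ne h]

/-- the matrices of the involutions -/
def moR (x : V × Bool) : Matrix (V → Bool) (V → Bool) K := Matrix.diagonal (sn K x)

/-- the matrices of the bits -/
def moB (x : V × Bool) : Matrix (V → Bool) (V → Bool) K :=
  Matrix.of fun ω η => if η = flp x.1 ω then 1 else 0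

theorem mulVec_moR (x : V × Bool) (f : (V → Bool) → K) (ω : V → Bool) :
    (moR K x).mulVec f ω = sn K x ω * f ω := by
  unfold moR
  rw [Matrix.mulVec_diagonal]

theorem mulVec_moB (x : V × Bool) (f : (V → Bool) → K) (ω : V → Bool) :
    (moB K x).mulVec f ω = f (flp x.1 ω) := by
  unfold moB Matrix.mulVec dotProduct
  simp only [Matrix.of_apply, ite_mul, one_mul, zero_mul, sum_ite_eq', mem_univ, if_true]

private theorem mat_ext {M N : Matrix (V → Bool) (V → Bool) K}
    (h : ∀ f : (V → Bool) → K, M.mulVec f = N.mulVec f) : M = N :=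
  Matrix.ext_of_mulVec_single fun _ => h _

/-- **The module of the octahedralisation.** -/
def mo : MB (oct G) K (V → Bool) where
  R := moR K
  B := moB K
  R_sq x := by
    refine mat_ext K fun f => ?_
    funext ω
    rw [← Matrix.mulVec_mulVec, Matrix.one_mulVec, mulVec_moR, mulVec_moR, ← mul_assoc, sn_sq,
      one_mul]
  B_sq x := by
    refine mat_ext K fun f => ?_
    funext ω
    rw [← Matrix.mulVec_mulVec, Matrix.one_mulVec, mulVec_moB, mulVec_moB, flp_flp]
  anti x := by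
    refine mat_ext K fun f => ?_
    funext ω
    rw [← Matrix.mulVec_mulVec, Matrix.neg_mulVec, ← Matrix.mulVec_mulVec, mulVec_moR, mulVec_moB,
      Pi.neg_apply, mulVec_moB, mulVec_moR, sn_flp]
    ring
  RR x y h := by
    refine mat_ext K fun f => ?_
    funext ω
    rw [← Matrix.mulVec_mulVec, ← Matrix.mulVec_mulVec, mulVec_moR, mulVec_moR, mulVec_moR,
      mulVec_moR]
    ring
  RB x y h := by
    have hxy : x.1 ≠ y.1 := SimpleGraph.Adj.ne (G := G) h
    refine mat_ext K fun f => ?_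
    funext ω
    rw [← Matrix.mulVec_mulVec, ← Matrix.mulVec_mulVec, mulVec_moR, mulVec_moB, mulVec_moB,
      mulVec_moR, sn_flp_ne K hxy]
  BB x y h := by
    have hxy : x.1 ≠ y.1 := SimpleGraph.Adj.ne (G := G) h
    refine mat_ext K fun f => ?_
    funext ω
    rw [← Matrix.mulVec_mulVec, ← Matrix.mulVec_mulVec, mulVec_moB, mulVec_moB, mulVec_moB,
      mulVec_moB, flp_comm hxy]

/-! ### The decomposition of the chains -/

/-- the copy of `τ` on the graph of `ω` -/
def gr (ω : V → Bool) (τ : Finset V) : Finset (V × Bool) := τ.image fun v => (v, ω v)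

theorem mem_gr {ω : V → Bool} {τ : Finset V} {x : V × Bool} :
    x ∈ gr ω τ ↔ x.1 ∈ τ ∧ ω x.1 = x.2 := by
  unfold gr
  rw [mem_image]
  constructor
  · rintro ⟨v, hv, rfl⟩
    exact ⟨hv, rfl⟩
  · rintro ⟨h1, h2⟩
    exact ⟨x.1, h1, by rw [h2]⟩

theorem gr_card (ω : V → Bool) (τ : Finset V) : (gr ω τ).card = τ.card :=
  card_image_of_injective _ fun _ _ h => congrArg Prod.fst h

theorem gr_insert (ω : V → Bool) (v : V) (τ : Finset V) :
    gr ω (insert v τ) = insert (v, ω v) (gr ω τ) := by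
  unfold gr
  rw [image_insert]

theorem gr_image {ω : V → Bool} {σ : Finset (V × Bool)} (h : ∀ x ∈ σ, ω x.1 = x.2) :
    gr ω (σ.image Prod.fst) = σ := by
  ext x
  rw [mem_gr, mem_image]
  constructor
  · rintro ⟨⟨y, hy, hyx⟩, h2⟩
    have h3 := h y hy
    have : y = x := Prod.ext hyx (by rw [← h3, hyx, h2])
    rwa [← this]
  · intro hx
    exact ⟨⟨x, hx, rfl⟩, h x hx⟩

theorem image_gr (ω : V → Bool) (τ : Finset V) : (gr ω τ).image Prod.fst = τ := by
  unfold gr
  rw [image_image]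
  exact image_id

theorem gr_clique {ω : V → Bool} {τ : Finset V} :
    (oct G).IsClique (gr ω τ : Set (V × Bool)) ↔ G.IsClique (τ : Set V) := by
  constructor
  · intro h u hu v hv huv
    have h1 : (u, ω u) ∈ gr ω τ := mem_gr.2 ⟨mem_coe.1 hu, rfl⟩
    have h2 : (v, ω v) ∈ gr ω τ := mem_gr.2 ⟨mem_coe.1 hv, rfl⟩
    exact h (mem_coe.2 h1) (mem_coe.2 h2) fun e => huv (congrArg Prod.fst e)
  · intro h x hx y hy hxy
    obtain ⟨h1, h2⟩ := mem_gr.1 (mem_coe.1 hx)
    obtain ⟨h3, h4⟩ := mem_gr.1 (mem_coe.1 hy)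
    refine h (mem_coe.2 h1) (mem_coe.2 h3) fun e => hxy (Prod.ext e ?_)
    rw [← h2, ← h4, e]

/-- a chain of the module vanishes off the graph of `ω` -/
theorem SCh_zero (h2 : (2 : K) ≠ 0) {i : ℕ} {f : Finset (V × Bool) → Unit → (V → Bool) → K}
    (hf : f ∈ SCh K (oct G) (fun _ => univ) (mo G K).R triv i) {σ : Finset (V × Bool)}
    {ω : V → Bool} {x : V × Bool} (hx : x ∈ σ) (hω : ω x.1 ≠ x.2) : f σ () ω = 0 := by
  have h1 : f σ () = -(moR K x).mulVec (f σ ()) := hf.2 σ x hx ()
  have h3 := congrFun h1 ω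
  rw [Pi.neg_apply, mulVec_moR] at h3
  unfold sn at h3
  rw [if_neg hω, one_mul] at h3
  have h4 : (2 : K) * f σ () ω = 0 := by linear_combination h3
  exact (mul_eq_zero.1 h4).resolve_left h2

theorem mem_SCh_mo (h2 : (2 : K) ≠ 0) {i : ℕ} (f : Finset (V × Bool) → Unit → (V → Bool) → K) :
    f ∈ SCh K (oct G) (fun _ => univ) (mo G K).R triv i ↔
      ∀ σ ω, f σ () ω ≠ 0 → (oct G).IsClique (σ : Set (V × Bool)) ∧ σ.card = i ∧
        ∀ x ∈ σ, ω x.1 = x.2 := by
  constructor
  · intro hf σ ω hne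
    have h1 := hf.1 σ () fun h0 => hne (by rw [h0]; rfl)
    refine ⟨fun u hu v hv huv => h1.2.1 u hu v hv huv, h1.2.2, fun x hx => ?_⟩
    by_contra hc
    exact hne (SCh_zero G K h2 hf hx hc)
  · intro h
    refine ⟨fun σ x hne => ?_, fun σ x hx u => ?_⟩
    · obtain ⟨ω, hω⟩ := Function.ne_iff.1 hne
      obtain ⟨h1, h3, -⟩ := h σ ω hω
      exact ⟨subset_univ _, fun u hu v hv huv => h1 hu hv huv, h3⟩
    · show f σ u = -(moR K x).mulVec (f σ u)
      funext ω
      rw [Pi.neg_apply, mulVec_moR]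
      by_cases hne : f σ u ω = 0
      · rw [hne, mul_zero, neg_zero]
      · have := (h σ ω hne).2.2 x hx
        unfold sn
        rw [if_pos this, neg_one_mul, neg_neg]

/-- **The cycles are boundaries.** -/
theorem cyc_le (h2 : (2 : K) ≠ 0) (ν : V × Bool → ℕ) (i : ℕ)
    (h : ∀ ω : V → Bool, SZ K G (fun _ : Unit => univ) (fun _ => (-1 : Matrix Unit Unit K)) triv
      (fun v => ν (v, ω v)) i ≤ SB K G (fun _ : Unit => univ) (fun _ => (-1 : Matrix Unit Unit K))
        triv (fun v => ν (v, ω v)) i) :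
    SZ K (oct G) (fun _ : Unit => univ) (mo G K).R triv ν i ≤
      SB K (oct G) (fun _ : Unit => univ) (mo G K).R triv ν i := by
  classical
  -- the sign
  have hsg : ∀ (ω : V → Bool) (v : V) (τ : Finset V),
      sg ν (v, ω v) (gr ω τ) = sg (fun v => ν (v, ω v)) v τ := by
    intro ω v τ
    unfold sg
    congr 1
    have : ((gr ω τ).filter fun u => ν u < ν (v, ω v)) =
        gr ω (τ.filter fun u => ν (u, ω u) < ν (v, ω v)) := by
      ext x
      rw [mem_filter, mem_gr, mem_gr, mem_filter]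
      constructor
      · rintro ⟨⟨h1, h3⟩, h4⟩
        refine ⟨⟨h1, ?_⟩, h3⟩
        have : (x.1, ω x.1) = x := Prod.ext rfl h3
        rwa [this]
      · rintro ⟨⟨h1, h4⟩, h3⟩
        refine ⟨⟨h1, h3⟩, ?_⟩
        have : (x.1, ω x.1) = x := Prod.ext rfl h3
        rwa [this] at h4
    rw [this, gr_card]
  -- the boundary on the graph of `ω`
  have hbd : ∀ (i : ℕ) (f : Finset (V × Bool) → Unit → (V → Bool) → K),
      f ∈ SCh K (oct G) (fun _ => univ) (mo G K).R triv i → ∀ (ω : V → Bool) (τ : Finset V),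
        tdl K ν f (gr ω τ) () ω = tdl K (fun v => ν (v, ω v))
          (fun ρ (_ : Unit) (_ : Unit) => f (gr ω ρ) () ω) τ () () := by
    intro i f hf ω τ
    show (∑ x ∈ (gr ω τ)ᶜ, ((sg ν x (gr ω τ) : ℤ) : K) • f (insert x (gr ω τ)) ()) ω =
      (∑ v ∈ τᶜ, ((sg (fun v => ν (v, ω v)) v τ : ℤ) : K) •
        (fun (_ : Unit) => f (gr ω (insert v τ)) () ω)) ()
    rw [Finset.sum_apply, Finset.sum_apply]
    have h3 : (τᶜ.image fun v => (v, ω v)) ⊆ (gr ω τ)ᶜ := by
      intro x hx
      obtain ⟨v, hv, rfl⟩ := mem_image.1 hx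
      rw [mem_compl] at hv ⊢
      exact fun h => hv (mem_gr.1 h).1
    rw [← sum_subset h3, sum_image]
    · refine sum_congr rfl fun v hv => ?_
      rw [Pi.smul_apply, Pi.smul_apply, gr_insert, hsg]
    · intro u _ v _ huv
      exact congrArg Prod.fst huv
    · intro x hx hx2
      rw [Pi.smul_apply, SCh_zero G K h2 hf (mem_insert_self x _) (ω := ω), smul_zero]
      intro hω
      refine hx2 (mem_image.2 ⟨x.1, ?_, Prod.ext rfl hω⟩)
      rw [mem_compl] at hx ⊢
      exact fun h => hx (mem_gr.2 ⟨h, hω⟩)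
  rintro f ⟨hf, hd⟩
  have hd0 : tdl K ν f = 0 := hd
  have hex : ∀ ω : V → Bool, ∃ y ∈ FC G K (i + 1), tdl K (fun v => ν (v, ω v)) y =
      fun ρ (_ : Unit) (_ : Unit) => f (gr ω ρ) () ω := by
    intro ω
    have h3 : (fun ρ (_ : Unit) (_ : Unit) => f (gr ω ρ) () ω) ∈ SZ K G (fun _ : Unit => univ)
        (fun _ => (-1 : Matrix Unit Unit K)) triv (fun v => ν (v, ω v)) i := by
      refine ⟨(mem_FC G K i _).2 fun τ hne => ?_, ?_⟩
      · obtain ⟨h4, h5, -⟩ := (mem_SCh_mo G K h2 f).1 hf _ _ hne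
        rw [gr_card] at h5
        exact ⟨(gr_clique G).1 h4, h5⟩
      · show tdl K (fun v => ν (v, ω v)) (fun ρ (_ : Unit) (_ : Unit) => f (gr ω ρ) () ω) = 0
        funext τ x u
        have h4 := hbd i f hf ω τ
        rw [hd0] at h4
        exact h4.symm
    obtain ⟨y, hy, hy2⟩ := h ω h3
    exact ⟨y, hy, hy2⟩
  choose y hy hy2 using hex
  let g : Finset (V × Bool) → Unit → (V → Bool) → K := fun σ _ ω =>
    if ∀ x ∈ σ, ω x.1 = x.2 then y ω (σ.image Prod.fst) () () else 0
  have hg : g ∈ SCh K (oct G) (fun _ => univ) (mo G K).R triv (i + 1) := by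
    rw [mem_SCh_mo G K h2]
    intro σ ω hne
    have h3 : ∀ x ∈ σ, ω x.1 = x.2 := by
      by_contra hc
      exact hne (if_neg hc)
    have h4 : g σ () ω = y ω (σ.image Prod.fst) () () := if_pos h3
    rw [h4] at hne
    obtain ⟨h5, h6⟩ := (mem_FC G K (i + 1) (y ω)).1 (hy ω) _ hne
    have h7 := gr_image h3
    refine ⟨?_, ?_, h3⟩
    · rw [← h7]
      exact (gr_clique G).2 h5
    · rw [← h7, gr_card]
      exact h6
  refine ⟨g, hg, ?_⟩
  funext σ u ω
  show tdl K ν g σ () ω = f σ () ω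
  by_cases h3 : ∀ x ∈ σ, ω x.1 = x.2
  · have h4 := hbd (i + 1) g hg ω (σ.image Prod.fst)
    rw [gr_image h3] at h4
    rw [h4]
    have h5 : (fun ρ (_ : Unit) (_ : Unit) => g (gr ω ρ) () ω) = y ω := by
      funext ρ a b
      have h6 : g (gr ω ρ) () ω = y ω ((gr ω ρ).image Prod.fst) () () :=
        if_pos fun x hx => (mem_gr.1 hx).2
      rw [h6, image_gr]
    rw [h5, hy2 ω]
    show f (gr ω (σ.image Prod.fst)) () ω = f σ () ω
    rw [gr_image h3]
  · push_neg at h3
    obtain ⟨x, hx, hω⟩ := h3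
    rw [SCh_zero G K h2 hf hx hω]
    show (∑ z ∈ σᶜ, ((sg ν z σ : ℤ) : K) • g (insert z σ) ()) ω = 0
    rw [Finset.sum_apply]
    refine sum_eq_zero fun z _ => ?_
    rw [Pi.smul_apply, SCh_zero G K h2 hg (mem_insert_of_mem hx) hω, smul_zero]

end

end Pool.Agent.H85.OK
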