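import Pool.Agent.H19.LG.Betti
import Pool.Agent.H19.LG.Defs
import Pool.Agent.H4.Singer.RankInt
import Pool.Agent.H65.RA.Defs

/-!
# Project OK: homology of a flag complex modulo two and modulo a large prime

If the reduced homology of the flag complex of `G` modulo two vanishes in one degree, then so does the reduced homology
modulo all large primes.
-/

set_option autoImplicit false
set_option linter.unusedSectionVars false

open Finset

namespace Pool.Agent.H85.OK

open Pool.Agent.H19.Cub Pool.Agent.H19.LG Pool.Agent.H4.Singer Pool.Agent.H85.Fold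
  Pool.Agent.H85.Fold2

/-! ### Ranks -/

private theorem minor {m n K : Type} [Fintype m] [Fintype n] [Field K]
    (A : Matrix m n K) :
    ∃ (r : Fin A.rank → m) (c : Fin A.rank → n), (A.submatrix r c).det ≠ 0 := by
  classical
  have h1 : A.rank = Module.finrank K (Submodule.span K (Set.range A.row)) :=
    Matrix.rank_eq_finrank_span_row A
  obtain ⟨f, hf, -, hli⟩ := Submodule.exists_fun_fin_finrank_span_eq K (Set.range A.row)
  choose r0 hr0 using hf
  have hli' : LinearIndependent K (fun i : Fin A.rank => A (r0 (Fin.cast h1 i))) := by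
    have h2 : (fun i : Fin A.rank => A (r0 (Fin.cast h1 i))) = f ∘ (Fin.cast h1) := by
      funext i
      exact hr0 _
    rw [h2]
    exact hli.comp _ (Fin.cast_injective h1)
  set r : Fin A.rank → m := fun i => r0 (Fin.cast h1 i) with hr
  let B : Matrix (Fin A.rank) n K := A.submatrix r id
  have hB : B.rank = A.rank := by
    have := LinearIndependent.rank_matrix (M := B) hli'
    simpa using this
  have h3 : B.rank = Module.finrank K (Submodule.span K (Set.range B.col)) :=
    Matrix.rank_eq_finrank_span_cols B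
  obtain ⟨g, hg, -, hgli⟩ := Submodule.exists_fun_fin_finrank_span_eq K (Set.range B.col)
  choose c0 hc0 using hg
  have h4 : A.rank = Module.finrank K (Submodule.span K (Set.range B.col)) := by
    rw [← h3, hB]
  refine ⟨r, fun i => c0 (Fin.cast h4 i), ?_⟩
  have hli2 : LinearIndependent K (fun i : Fin A.rank => B.col (c0 (Fin.cast h4 i))) := by
    have h2 : (fun i : Fin A.rank => B.col (c0 (Fin.cast h4 i))) = g ∘ (Fin.cast h4) := by
      funext i
      exact hc0 _
    rw [h2]
    exact hgli.comp _ (Fin.cast_injective h4)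
  have h5 : IsUnit (A.submatrix r fun i => c0 (Fin.cast h4 i)) := by
    rw [← Matrix.linearIndependent_cols_iff_isUnit]
    exact hli2
  exact ((Matrix.isUnit_iff_isUnit_det _).1 h5).ne_zero

private theorem det_cast {m n F : Type} [Fintype m] [Fintype n] [Field F]
    (A : Matrix m n ℤ) {k : ℕ} (r : Fin k → m) (c : Fin k → n) :
    ((A.map (Int.cast : ℤ → F)).submatrix r c).det = (((A.submatrix r c).det : ℤ) : F) := by
  have : ((A.map (Int.cast : ℤ → F)).submatrix r c) =
      (Int.castRingHom F).mapMatrix (A.submatrix r c) := by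
    ext i j
    simp
  rw [this, ← RingHom.map_det]
  rfl

private theorem rank_ge {m n : Type} [Fintype m] [Fintype n] (A : Matrix m n ℤ) (F : Type)
    [Field F] {k : ℕ} (r : Fin k → m) (c : Fin k → n)
    (h : (((A.submatrix r c).det : ℤ) : F) ≠ 0) : k ≤ (A.map (Int.cast : ℤ → F)).rank := by
  classical
  have h3 : ((A.map (Int.cast : ℤ → F)).submatrix r c).det ≠ 0 := by
    rw [det_cast]
    exact h
  have h4 : LinearIndependent F ((A.map (Int.cast : ℤ → F)).submatrix r c).row := by
    rw [Matrix.linearIndependent_rows_iff_isUnit, Matrix.isUnit_iff_isUnit_det]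
    exact isUnit_iff_ne_zero.2 h3
  have h5 : LinearIndependent F (fun i => (A.map (Int.cast : ℤ → F)).row (r i)) := by
    refine LinearIndependent.of_comp (LinearMap.funLeft F F c) ?_
    exact h4
  rw [Matrix.rank_eq_finrank_span_row]
  have h6 : Submodule.span F (Set.range fun i => (A.map (Int.cast : ℤ → F)).row (r i)) ≤
      Submodule.span F (Set.range (A.map (Int.cast : ℤ → F)).row) := by
    refine Submodule.span_mono ?_
    rintro _ ⟨i, rfl⟩
    exact ⟨r i, rfl⟩
  have h7 := Submodule.finrank_mono h6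
  rw [finrank_span_eq_card h5] at h7
  simpa using h7

/-- The rank of an integer matrix modulo a large prime is at least the rank over any field. -/
theorem rank_large {m n : Type} [Fintype m] [Fintype n] (A : Matrix m n ℤ) :
    ∃ p₀ : ℕ, ∀ (p : ℕ) [Fact p.Prime], p₀ ≤ p → ∀ (F : Type) [Field F],
      (A.map (Int.cast : ℤ → F)).rank ≤ (A.map (Int.cast : ℤ → ZMod p)).rank := by
  classical
  obtain ⟨r, c, hdet⟩ := minor (A.map (Int.cast : ℤ → ℂ))
  rw [det_cast] at hdet
  have hd : (A.submatrix r c).det ≠ 0 := by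
    intro h
    rw [h] at hdet
    simp at hdet
  refine ⟨(A.submatrix r c).det.natAbs + 1, fun p _ hp F _ =>
    (rank_int_le A F).trans (rank_ge A (ZMod p) r c ?_)⟩
  intro h
  rw [ZMod.intCast_zmod_eq_zero_iff_dvd] at h
  have h2 := Int.natAbs_dvd_natAbs.2 h
  rw [Int.natAbs_natCast] at h2
  have h3 := Nat.le_of_dvd (Int.natAbs_pos.2 hd) h2
  omega

/-! ### Boundaries are cycles -/

private theorem tdl_app {V : Type} [DecidableEq V] [Fintype V] (K : Type) [Field K]
    {D X : Type} (ν : V → ℕ) (f : Finset V → X → D → K) (τ : Finset V)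
    (x : X) (d : D) : tdl K ν f τ x d =
      ∑ v ∈ τᶜ, (sg ν v τ : K) * f (insert v τ) x d := by
  show (∑ v ∈ τᶜ, (sg ν v τ : K) • f (insert v τ) x) d = _
  rw [Finset.sum_apply]
  exact Finset.sum_congr rfl fun v _ => rfl

private theorem tdl_tdl {V : Type} [DecidableEq V] [Fintype V] (K : Type) [Field K]
    {D X : Type} (ν : V → ℕ) (hν : Function.Injective ν)
    (f : Finset V → X → D → K) : tdl K ν (tdl K ν f) = 0 := by
  funext τ x d
  have h1 := congrFun (congrFun
    (dl_dl (F := K) ν hν (fun σ (x : X) => f σ x d)) τ) x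
  rw [dl_apply] at h1
  rw [tdl_app]
  rw [Pi.zero_apply, Pi.zero_apply, Pi.zero_apply]
  rw [Pi.zero_apply, Pi.zero_apply] at h1
  rw [← h1]
  refine Finset.sum_congr rfl fun v _ => ?_
  rw [tdl_app, dl_apply]

/-- the boundaries are cycles -/
theorem SB_le_SZ {V : Type} [DecidableEq V] [Fintype V] (K : Type) [Field K]
    {D X : Type} [Fintype D] [DecidableEq D] (G : SimpleGraph V) (Y : X → Finset V)
    (B : V → Matrix D D K) (s : V → X → X) (ν : V → ℕ)
    (hν : Function.Injective ν) (i : ℕ) : SB K G Y B s ν i ≤ SZ K G Y B s ν i := by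
  rintro f ⟨y, hy, rfl⟩
  obtain ⟨hy1, hy2⟩ := hy
  refine ⟨⟨?_, ?_⟩, LinearMap.mem_ker.mpr (tdl_tdl K ν hν y)⟩
  · intro τ x hne
    have h' : ∑ v ∈ τᶜ, (sg ν v τ : K) • y (insert v τ) x ≠ 0 := hne
    obtain ⟨w, hw, hw'⟩ := Finset.exists_ne_zero_of_sum_ne_zero h'
    have hne' : y (insert w τ) x ≠ 0 := by
      intro h0
      exact hw' (by rw [h0, smul_zero])
    obtain ⟨h0, h1, h2⟩ := hy1 _ _ hne'
    refine ⟨(Finset.subset_insert _ _).trans h0,
      fun a ha b hb hab => h1 a (Finset.mem_insert_of_mem ha) b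
      (Finset.mem_insert_of_mem hb) hab, ?_⟩
    rw [Finset.card_insert_of_notMem (Finset.mem_compl.mp hw)] at h2
    omega
  · intro τ v hv x
    show ∑ w ∈ τᶜ, (sg ν w τ : K) • y (insert w τ) (s v x) =
      -(B v).mulVec (∑ w ∈ τᶜ, (sg ν w τ : K) • y (insert w τ) x)
    rw [Matrix.mulVec_sum, ← Finset.sum_neg_distrib]
    refine Finset.sum_congr rfl fun w _ => ?_
    rw [hy2 _ v (Finset.mem_insert_of_mem hv) x, Matrix.mulVec_smul, smul_neg]

/-! ### The homology of the flag complex -/

section

variable {V : Type} [DecidableEq V] [Fintype V] (G : SimpleGraph V)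

/-- chains of the flag complex with coefficients in the field `K` -/
abbrev FC (K : Type) [Field K] (i : ℕ) : Submodule K (Finset V → Unit → Unit → K) :=
  SCh K G (fun _ => univ) (fun _ => (-1 : Matrix Unit Unit K)) triv i

theorem mem_FC (K : Type) [Field K] (i : ℕ) (f : Finset V → Unit → Unit → K) :
    f ∈ FC G K i ↔ ∀ σ, f σ () () ≠ 0 → G.IsClique (σ : Set V) ∧ σ.card = i := by
  constructor
  · rintro ⟨h1, -⟩ σ hne
    have h := h1 σ () fun h0 => hne (by rw [h0]; rfl)
    refine ⟨?_, h.2.2⟩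
    intro u hu v hv huv
    exact h.2.1 u hu v hv huv
  · intro h
    refine ⟨fun σ x hne => ?_, fun σ v hv x => ?_⟩
    · obtain ⟨u, hu⟩ := Function.ne_iff.1 hne
      obtain ⟨h1, h2⟩ := h σ hu
      exact ⟨subset_univ _, fun u hu v hv huv => h1 hu hv huv, h2⟩
    · rw [Matrix.neg_mulVec, Matrix.one_mulVec, neg_neg]

open Classical in
/-- the dimension of the chains does not depend on the field -/
theorem finrank_FC (K : Type) [Field K] (i : ℕ) : Module.finrank K (FC G K i) =
    (univ.filter fun σ : Finset V => G.IsClique (σ : Set V) ∧ σ.card = i).card := by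
  let e : FC G K i ≃ₗ[K] ({σ : Finset V // G.IsClique (σ : Set V) ∧ σ.card = i} → K) :=
    { toFun := fun f σ => f.1 σ.1 () ()
      map_add' := fun _ _ => rfl
      map_smul' := fun _ _ => rfl
      invFun := fun g => ⟨fun σ _ _ => if h : G.IsClique (σ : Set V) ∧ σ.card = i then
        g ⟨σ, h⟩ else 0, (mem_FC G K i _).2 fun σ hne => by
          by_contra hc
          exact hne (dif_neg hc)⟩
      left_inv := by
        intro f
        apply Subtype.ext
        funext σ x u
        show (if h : G.IsClique (σ : Set V) ∧ σ.card = i then f.1 σ () () else 0) = f.1 σ x u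
        split_ifs with h
        · rfl
        · by_contra hne
          exact h ((mem_FC G K i f.1).1 f.2 σ fun h0 => hne h0.symm)
      right_inv := by
        intro g
        funext σ
        show (if h : G.IsClique (σ.1 : Set V) ∧ σ.1.card = i then g ⟨σ.1, h⟩ else 0) = g σ
        rw [dif_pos σ.2] }
  rw [e.finrank_eq, Module.finrank_fintype_fun_eq_card, Fintype.card_subtype]

/-- the reduced Betti number of the flag complex on the simplices with `i` vertices -/
noncomputable abbrev fb (K : Type) [Field K] (ν : V → ℕ) (i : ℕ) : ℕ :=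
  bS K G (fun _ : Unit => univ) (fun _ => (-1 : Matrix Unit Unit K)) triv ν i

/-- **Large primes.** -/
theorem fb_large (ν : V → ℕ) (hν : Function.Injective ν) (i : ℕ) :
    ∃ p₀ : ℕ, ∀ (p : ℕ) [Fact p.Prime], p₀ ≤ p → ∀ (F : Type) [Field F],
      fb G (ZMod p) ν i ≤ fb G F ν i := by
  obtain ⟨C, R, -, H⟩ := exists_matsS G (fun _ => (-1 : Matrix Unit Unit ℤ)) ν i
  obtain ⟨m, n, _, _, A₀, A₁, -, -, hA⟩ := H Unit (fun _ => univ) triv
  obtain ⟨C', R', -, H'⟩ := exists_matsS G (fun _ => (-1 : Matrix Unit Unit ℤ)) ν (i + 1)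
  obtain ⟨m', n', _, _, A₀', A₁', -, -, hA'⟩ := H' Unit (fun _ => univ) triv
  obtain ⟨p1, h1⟩ := rank_large A₁
  obtain ⟨p2, h2⟩ := rank_large A₁'
  refine ⟨p1 + p2, fun p _ hp F _ => ?_⟩
  have hmc : ∀ (K : Type) [Field K], mc K (fun _ : V => (-1 : Matrix Unit Unit ℤ)) =
      fun _ => (-1 : Matrix Unit Unit K) := by
    intro K _
    funext v
    ext a b
    simp [mc]
  have a1 := (hA F).2
  have a2 := (hA (ZMod p)).2
  have b1 := (hA' F).2
  have b2 := (hA' (ZMod p)).2
  rw [hmc] at a1 a2 b1 b2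
  have e1 := h1 p (by omega) F
  have e2 := h2 p (by omega) F
  have d1 := bS_add F G (fun _ : Unit => univ) (fun _ => (-1 : Matrix Unit Unit F)) triv
    (isSpec_triv G _) ν hν i
  have d2 := bS_add (ZMod p) G (fun _ : Unit => univ) (fun _ => (-1 : Matrix Unit Unit (ZMod p)))
    triv (isSpec_triv G _) ν hν i
  have c1 := finrank_FC G F (i + 1)
  have c2 := finrank_FC G (ZMod p) (i + 1)
  unfold FC at c1 c2
  unfold fb
  omega

/-- the homology modulo two -/
theorem fb_two {i : ℕ} (h : Pool.Agent.H65.RA.HZ G i) (ν : V → ℕ) : fb G (ZMod 2) ν i = 0 := by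
  unfold fb bS
  rw [Nat.sub_eq_zero_iff_le]
  refine Submodule.finrank_mono ?_
  rintro f ⟨hf, hd⟩
  have hs : ∀ (v : V) (τ : Finset V), ((sg ν v τ : ℤ) : ZMod 2) = 1 := by
    intro v τ
    unfold sg
    push_cast
    rw [show (-1 : ZMod 2) = 1 from by decide, one_pow]
  have hsum : ∀ (g : Finset V → Unit → Unit → ZMod 2) (σ : Finset V),
      tdl (ZMod 2) ν g σ () () = ∑ v ∈ σᶜ, g (insert v σ) () () := by
    intro g σ
    show (∑ v ∈ σᶜ, ((sg ν v σ : ℤ) : ZMod 2) • g (insert v σ) ()) () = _
    rw [Finset.sum_apply]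
    refine sum_congr rfl fun v _ => ?_
    rw [hs, one_smul]
  obtain ⟨y, hy1, hy2⟩ := h (fun σ => f σ () ()) ((mem_FC G (ZMod 2) i f).1 hf) (fun s => by
    have h1 : tdl (ZMod 2) ν f = 0 := hd
    rw [← hsum f s, h1]
    rfl)
  refine ⟨fun σ _ _ => y σ, (mem_FC G (ZMod 2) (i + 1) _).2 hy1, ?_⟩
  funext σ x u
  show tdl (ZMod 2) ν (fun σ _ _ => y σ) σ () () = f σ () ()
  rw [hsum]
  exact hy2 σ

end

end Pool.Agent.H85.OK
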